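import Pool.Agent.V7H76.AD.Spec

/-!
# Piece CON: a run of `P` terms inside one cell
-/

open Finset
open scoped Classical

namespace Pool.Agent.V7H86.AD
open Pool.Agent.V7H76.AD

/-- The element of the window `w` (length `M`) in the class of `r`. -/
def elt (M w : ℕ) (r : ℤ) : ℕ := w * M + (r % (M : ℤ)).toNat

theorem elt_div {M : ℕ} (hM : 0 < M) (w : ℕ) (r : ℤ) : elt M w r / M = w := by
  unfold elt
  have h1 : (r % (M : ℤ)).toNat < M := by
    have := Int.emod_lt_of_pos r (show (0 : ℤ) < M by exact_mod_cast hM)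
    have h0 := Int.emod_nonneg r (show (M : ℤ) ≠ 0 by exact_mod_cast hM.ne')
    omega
  rw [Nat.mul_comm, Nat.mul_add_div hM, Nat.div_eq_of_lt h1, Nat.add_zero]

theorem elt_mod {M : ℕ} (hM : 0 < M) (w : ℕ) (r : ℤ) :
    ((elt M w r : ℕ) : ℤ) ≡ r [ZMOD (M : ℤ)] := by
  unfold elt
  have h0 := Int.emod_nonneg r (show (M : ℤ) ≠ 0 by exact_mod_cast hM.ne')
  push_cast
  rw [Int.toNat_of_nonneg h0]
  unfold Int.ModEq
  rw [Int.add_comm, Int.add_mul_emod_self_right]
  exact Int.emod_emod_of_dvd r (dvd_refl _)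

/-- Increasing choice of `P` elements of a finite set of naturals with at least `P` elements. -/
theorem exists_incr (P : ℕ) (G : Finset ℕ) (h : P ≤ G.card) :
    ∃ w : ℕ → ℕ, (∀ j < P, w j ∈ G) ∧ ∀ i j, i < j → j < P → w i < w j := by
  obtain ⟨T, hTG, hT⟩ := Finset.exists_subset_card_eq h
  refine ⟨fun j => if hj : j < P then T.orderEmbOfFin hT ⟨j, hj⟩ else 0, ?_, ?_⟩
  · intro j hj
    simp only [hj, dif_pos]
    exact hTG (T.orderEmbOfFin_mem hT ⟨j, hj⟩)
  · intro i j hij hj
    have hi : i < P := hij.trans hj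
    simp only [hi, hj, dif_pos]
    exact (T.orderEmbOfFin hT).strictMono (by simpa using hij)

theorem st_diff {P m : ℕ} (hP : P = 2 ^ m) (hm : 1 ≤ m) (lab : ℕ → ℕ) (t α : ℕ)
    (hα : lab t = α) {j : ℕ} (hj : j < P) (z : ℤ)
    (hz : z ≡ st P lab (t * P + j + 1) - st P lab (t * P + j) [ZMOD ((16 * P : ℕ) : ℤ)]) :
    Cls (16 * P) α z := by
  have hPpos : 0 < P := by omega
  have hP2 : 2 ∣ P := by rw [hP]; exact dvd_pow_self 2 (by omega)
  have e1 : (t * P + j) % P = j := by
    rw [Nat.add_comm, Nat.add_mul_mod_self_right]; exact Nat.mod_eq_of_lt hj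
  have e2 : (t * P + j) / P = t := by
    rw [Nat.add_comm, Nat.add_mul_div_right _ _ hPpos, Nat.div_eq_of_lt hj, Nat.zero_add]
  by_cases hj1 : j + 1 < P
  · have e3 : (t * P + j + 1) % P = j + 1 := by
      rw [Nat.add_assoc, Nat.add_comm, Nat.add_mul_mod_self_right]; exact Nat.mod_eq_of_lt hj1
    have e4 : (t * P + j + 1) / P = t := by
      rw [Nat.add_assoc, Nat.add_comm, Nat.add_mul_div_right _ _ hPpos, Nat.div_eq_of_lt hj1,
        Nat.zero_add]
    unfold st at hz
    rw [e1, e2, e3, e4, hα] at hz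
    unfold Cls
    rw [if_neg (by omega : ¬ (j + 1 = 0))] at hz
    rcases Nat.eq_zero_or_pos j with h0 | h0
    · subst h0
      left
      simpa using hz
    · rw [if_neg (by omega : ¬ (j = 0))] at hz
      rcases Nat.even_or_odd j with he | ho
      · have h1 : (j + 1) % 2 = 1 := by
          have := Nat.even_iff.1 he; omega
        have h2 : ¬ (j % 2 = 1) := by
          have := Nat.even_iff.1 he; omega
        rw [if_pos h1, if_neg h2] at hz
        right; right; left
        convert hz using 1
        ring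
      · have h1 : ¬ ((j + 1) % 2 = 1) := by
          have := Nat.odd_iff.1 ho; omega
        have h2 : j % 2 = 1 := Nat.odd_iff.1 ho
        rw [if_neg h1, if_pos h2] at hz
        right; left
        convert hz using 1
        ring
  · have hjP : j + 1 = P := by omega
    have e3 : (t * P + j + 1) % P = 0 := by
      rw [Nat.add_assoc, hjP]
      have : t * P + P = (t + 1) * P := by ring
      rw [this]; exact Nat.mul_mod_left _ _
    unfold st at hz
    rw [e1, e2, e3, hα] at hz
    have h2 : j % 2 = 1 := by omega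
    have h3 : ¬ (j = 0) := by omega
    rw [if_pos rfl, if_neg h3, if_pos h2] at hz
    unfold Cls
    right; right; right
    convert hz using 1
    ring

theorem S_congr {b b' : ℕ → ℕ} {n : ℕ} (h : ∀ j < n, b' j = b j) {l : ℕ} (hl : l ≤ n) :
    S b' l = S b l := by
  unfold S
  exact Finset.sum_congr rfl (fun j hj => h j (lt_of_lt_of_le (Finset.mem_range.1 hj) hl))

theorem S_succ (b : ℕ → ℕ) (l : ℕ) : S b (l + 1) = S b l + b l := by
  unfold S
  exact Finset.sum_range_succ b l

theorem S_mono (b : ℕ → ℕ) {i j : ℕ} (h : i ≤ j) : S b i ≤ S b j := by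
  unfold S
  exact Finset.sum_le_sum_of_subset (Finset.range_subset_range.2 h)

/-- CON: a run of `P` terms with a label `α` that is not blocked in the cell `q`. -/
theorem t_CON : S_CON := by
  intro P m n0 i0 q0 L A b0 hPar t q b lab U hInv hq α hα hOK lab' hlab hlabt
  have hPpos : 0 < P := by rw [hPar.hP]; positivity
  have hM : 0 < 16 * P := by omega
  set n := n0 + t * P with hn
  have hq0 : 1 ≤ q0 := by
    rcases Nat.eq_zero_or_pos q0 with h | h
    · have := hPar.hq
      rw [h, Nat.zero_mul] at this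
      have h2 : 0 < 2 ^ i0 := by positivity
      omega
    · exact h
  -- the good windows
  set bad := (Ico (q * (2 * P)) ((q + 1) * (2 * P))).filter
    (fun w => ∃ z : ℕ, z / (16 * P) = w ∧ Cls (16 * P) α z ∧ Dg b n z) with hbad
  set good := (Ico (q * (2 * P)) ((q + 1) * (2 * P))).filter
    (fun w => ¬ ∃ z : ℕ, z / (16 * P) = w ∧ Cls (16 * P) α z ∧ Dg b n z) with hgood
  have hcard : bad.card + good.card = 2 * P := by
    have := Finset.card_filter_add_card_filter_not (s := Ico (q * (2 * P)) ((q + 1) * (2 * P)))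
      (fun w => ∃ z : ℕ, z / (16 * P) = w ∧ Cls (16 * P) α z ∧ Dg b n z)
    rw [← hbad, ← hgood, Nat.card_Ico] at this
    rw [this]
    have : (q + 1) * (2 * P) = q * (2 * P) + 2 * P := by ring
    omega
  have hbadc : bad.card ≤ P := by
    unfold NotOK at hOK
    exact not_lt.1 hOK
  obtain ⟨w, hwG, hwm⟩ := exists_incr P good (by omega)
  have hwI : ∀ j < P, q * (2 * P) ≤ w j ∧ w j < (q + 1) * (2 * P) := by
    intro j hj
    have := (Finset.mem_filter.1 (hwG j hj)).1
    exact Finset.mem_Ico.1 this
  have hwN : ∀ j < P, ¬ ∃ z : ℕ, z / (16 * P) = w j ∧ Cls (16 * P) α z ∧ Dg b n z := by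
    intro j hj
    exact (Finset.mem_filter.1 (hwG j hj)).2
  -- the new sequence
  set b' : ℕ → ℕ := fun k => if k < n then b k else
    elt (16 * P) (w (k - n)) (st P lab' (k - n0 + 1) - st P lab' (k - n0)) with hb'
  have hold : ∀ j < n, b' j = b j := by
    intro j hj
    simp only [hb', hj, if_true]
  have hnew : ∀ j, b' (n0 + (t * P + j)) =
      elt (16 * P) (w j) (st P lab' (t * P + j + 1) - st P lab' (t * P + j)) := by
    intro j
    have h1 : ¬ (n0 + (t * P + j) < n) := by omega
    have h2 : n0 + (t * P + j) - n = j := by omega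
    have h3 : n0 + (t * P + j) - n0 = t * P + j := by omega
    simp only [hb', h1, if_false, h2, h3]
  have hdiv : ∀ j, b' (n0 + (t * P + j)) / (16 * P) = w j := by
    intro j
    rw [hnew, elt_div hM]
  have hmod : ∀ j, ((b' (n0 + (t * P + j)) : ℕ) : ℤ) ≡
      st P lab' (t * P + j + 1) - st P lab' (t * P + j) [ZMOD ((16 * P : ℕ) : ℤ)] := by
    intro j
    rw [hnew]
    exact elt_mod hM _ _
  have hrange : ∀ j < P, q * (32 * P * P) ≤ b' (n0 + (t * P + j)) ∧
      b' (n0 + (t * P + j)) < (q + 1) * (32 * P * P) := by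
    intro j hj
    obtain ⟨h1, h2⟩ := hwI j hj
    have h3 := hdiv j
    constructor
    · have : q * (2 * P) * (16 * P) ≤ b' (n0 + (t * P + j)) := by
        rw [← Nat.le_div_iff_mul_le hM, h3]; exact h1
      calc q * (32 * P * P) = q * (2 * P) * (16 * P) := by ring
        _ ≤ _ := this
    · have : b' (n0 + (t * P + j)) < (q + 1) * (2 * P) * (16 * P) := by
        rw [← Nat.div_lt_iff_lt_mul hM, h3]; exact h2
      calc _ < (q + 1) * (2 * P) * (16 * P) := this
        _ = (q + 1) * (32 * P * P) := by ring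
  have hwin : ∀ i j, i < j → j < P → b' (n0 + (t * P + i)) < b' (n0 + (t * P + j)) := by
    intro i j hij hj
    by_contra hcon
    have h1 := Nat.div_le_div_right (c := 16 * P) (not_lt.1 hcon)
    rw [hdiv, hdiv] at h1
    have := hwm i j hij hj
    omega
  have hSn : S b' n = S b n := S_congr hold le_rfl
  have hSn0 : S b' n0 = S b n0 := S_congr hold (by omega)
  -- lower bound for the terms from `n0 - 1` on
  have hlow : ∀ k, n0 ≤ k + 1 → k < n + P → 32 * P * P ≤ b' k := by
    intro k hk1 hk2
    by_cases hk3 : k < n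
    · rw [hold k hk3]
      by_cases hk4 : k < n0
      · have hk5 : k = n0 - 1 := by omega
        rw [hInv.old k hk4, hk5]
        exact hPar.hb
      · obtain ⟨i, rfl⟩ := Nat.exists_eq_add_of_le (not_lt.1 hk4)
        have h1 := (hInv.rng i (by omega)).1
        calc 32 * P * P = 1 * (32 * P * P) := by ring
          _ ≤ q0 * (32 * P * P) := Nat.mul_le_mul_right _ hq0
          _ ≤ _ := h1
    · obtain ⟨i, rfl⟩ := Nat.exists_eq_add_of_le (not_lt.1 hk3)
      have h1 := (hrange i (by omega)).1
      have h2 : n + i = n0 + (t * P + i) := by omega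
      rw [h2]
      calc 32 * P * P = 1 * (32 * P * P) := by ring
        _ ≤ q * (32 * P * P) := Nat.mul_le_mul_right _ (by omega)
        _ ≤ _ := h1
  refine ⟨b', hold, hrange, ?_, ?_, ?_⟩
  · intro j hj
    have h1 : n0 + (t * P + j + 1) = n0 + (t * P + (j + 1)) := by ring
    rw [h1, hdiv, hdiv]
    exact hwm j (j + 1) (by omega) hj
  · intro j
    induction j with
    | zero =>
      intro _
      have h1 := hInv.res (t * P) le_rfl
      have e1 : (t * P) % P = 0 := Nat.mul_mod_left _ _
      have e2 : st P lab (t * P) = 3 := by unfold st; rw [if_pos e1]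
      have e3 : st P lab' (t * P) = 3 := by unfold st; rw [if_pos e1]
      rw [Nat.add_zero, e3, ← hn, hSn, hSn0]
      rw [e2, ← hn] at h1
      exact h1
    | succ j ih =>
      intro hj
      have h1 := ih (by omega)
      have h2 := hmod j
      have h3 : n0 + (t * P + (j + 1)) = n0 + (t * P + j) + 1 := by ring
      rw [h3, S_succ, Nat.cast_add]
      have h4 := h1.add h2
      have h5 : st P lab' (t * P + j) +
          (st P lab' (t * P + j + 1) - st P lab' (t * P + j)) = st P lab' (t * P + (j + 1)) := by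
        rw [Nat.add_assoc]; ring
      rw [h5] at h4
      have h6 : ((S b' (n0 + (t * P + j)) : ℤ) + (b' (n0 + (t * P + j)) : ℤ)) - (S b' n0 : ℤ) + 3 =
          (S b' (n0 + (t * P + j)) : ℤ) - (S b' n0 : ℤ) + 3 + (b' (n0 + (t * P + j)) : ℤ) := by
        ring
      rw [h6]
      exact h4
  · rintro j hj ⟨j1, l, hj1, hl, hS⟩
    by_cases hln : l ≤ n
    · -- old dangerous number
      apply hwN j hj
      refine ⟨b' (n0 + (t * P + j)), hdiv j, st_diff hPar.hP hPar.hm lab' t α hlabt hj _ (hmod j),
        j1, l, hj1, hln, ?_⟩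
      rw [S_congr hold hln, S_congr hold (hj1.le.trans hln)] at hS
      exact hS
    · obtain ⟨i, rfl⟩ := Nat.exists_eq_add_of_le (not_le.1 hln)
      -- `l = n + 1 + i`
      have e1 : n.succ + i = n0 + (t * P + i) + 1 := by omega
      rw [e1, S_succ] at hS
      have hij : i < j := by omega
      by_cases hone : j1 = n0 + (t * P + i)
      · rw [hone] at hS
        have := hwin i j hij hj
        omega
      · have hj1' : j1 + 1 ≤ n0 + (t * P + i) := by omega
        obtain ⟨k, hk⟩ : ∃ k, n0 + (t * P + i) = k + 1 := ⟨n0 + (t * P + i) - 1, by omega⟩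
        have h1 : S b' (n0 + (t * P + i)) = S b' k + b' k := by rw [hk, S_succ]
        have h2 : S b' j1 ≤ S b' k := S_mono b' (by omega)
        have h3 : 32 * P * P ≤ b' k := hlow k (by omega) (by omega)
        have h4 := (hrange i (by omega)).1
        have h5 := (hrange j hj).2
        have h6 : (q + 1) * (32 * P * P) = q * (32 * P * P) + 32 * P * P := by ring
        omega

end Pool.Agent.V7H86.AD
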